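import Pool.Agent.H66.TF.FinalDefs

/-!
# Values of Capelli sums and triple commutators in a ring without unit
-/

universe v

open Equiv Unitization

namespace TF

/-- The values in `A^# = ℤ ⊕ A` of the Capelli sums of order `N + 1`:
`∑_σ sgn(σ) w_0 a_{σ 0} w_1 a_{σ 1} w_2 ⋯ a_{σ N} w_{N+1}` with `a_i ∈ A` and `w_j ∈ A^#`. -/
def CapVal (A : Type v) [NonUnitalRing A] (N : ℕ) (g : Unitization ℤ A) : Prop :=
  ∃ (w : Fin (N + 2) → Unitization ℤ A) (a : Fin (N + 1) → A),
    g = ∑ σ : Perm (Fin (N + 1)), ((Perm.sign σ : ℤˣ) : ℤ) •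
      (w 0 * (List.ofFn fun i : Fin (N + 1) => (inr (a (σ i)) : Unitization ℤ A) * w i.succ).prod)

/-- The values in `A^#` of the triple commutators with arbitrary left and right factors:
`x [[a, b], c] y` with `a, b, c ∈ A` and `x, y ∈ A^#`. -/
def TriVal (A : Type v) [NonUnitalRing A] (g : Unitization ℤ A) : Prop :=
  ∃ (a b c : A) (x y : Unitization ℤ A),
    g = x * inr ((a * b - b * a) * c - c * (a * b - b * a)) * y

/-- `some N` stands for the Capelli sums of order `N + 1`, `none` for the triple commutators. -/
def TypVal (A : Type v) [NonUnitalRing A] : Option ℕ → Unitization ℤ A → Prop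
  | some N => CapVal A N
  | none => TriVal A

/-- The condition: up to a positive integer factor `n`, the torsion elements of `A` are killed by a
product of values of Capelli sums and triple commutators of fixed types. -/
def TorCond (A : Type v) [NonUnitalRing A] : Prop :=
  ∃ (n : ℕ) (L : List (Option ℕ)), 0 < n ∧
    ∀ t : A, (∃ k : ℕ, 0 < k ∧ k • t = 0) →
      ∀ gs : List (Unitization ℤ A), List.Forall₂ (TypVal A) L gs →
        n • ((inr t : Unitization ℤ A) * gs.prod) = 0

end TF
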