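import Pool.Agent.H66.TF.TIdeals

/-!
# The T-ideal generated by the triple commutator `[[x, y], z]` is pure

`T3` is the two-sided ideal of `FA = ℤ⟨x₀, x₁, …⟩` generated by all `[[u, v], w]`.

Proof that `FA / T3` is torsion-free.
(a) In `F = FA / T3` commutators are central, and `[a, b][a, c] = 0` for all `a, b, c`:
    `0 = [[x, y z], t] = [[x, y] z + y [x, z], t] = [x, y][z, t] + [y, t][x, z]` (the other terms are zero),
    with `t = z`: `[y, z][x, z] = 0`. Hence `[a, b][c, d] = - [a, c][b, d]`, products of
    commutators of letters are alternating in all letters.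
(b) `F` is additively generated by the elements `x^μ c_J`, `x^μ = x_0^{μ_0} x_1^{μ_1} ⋯` (sorted
    monomial), `c_J = [x_{j_1}, x_{j_2}] ⋯ [x_{j_{2s-1}}, x_{j_{2s}}]`, `J = {j_1 < ⋯ < j_{2s}}`.
    (Multiply such an element by a letter on the right and sort: `x^μ c_J x_i = x^μ x_i c_J`, and moving `x_i` to its
    place produces terms `x^{μ'} [x_k, x_i] c_J`, which are `0` or `± x^{μ'} c_{J ∪ {k, i}}`, by alternation.)
(c) Let `P = MvPolynomial ℕ ℤ`, `Λ = ExteriorAlgebra P (ℕ →₀ P)` and `φ : FA → Λ`, `x_i ↦ t_i + e_i`. Commutators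
    of elements of `Λ` are even elements, so they are central, and `φ` kills `T3`. `[x_i, x_j] ↦ 2 e_i e_j`. If
    `∑ a_{μ J} x^μ c_J ↦ 0` look at the lowest degree `2s` in the `e_i` with some `a_{μ J} ≠ 0`, `|J| = 2s`: the part of degree
    `2s` is `∑_{|J| = 2s} a_{μ J} 2^s t^μ e_J`, so all these `a_{μ J}` are `0`. Hence `ker φ = T3`, and `Λ` is
    torsion-free (free over `P`).
    (Any other concrete torsion-free model is fine, e.g. the free `ℤ`-module on pairs `(μ, J)`, `J : Finset ℕ`, with explicit
    operators of right multiplication by `t_i + e_i`: it is enough to have an additive map `ψ : FA → N` to a torsion-free group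
    that kills `T3` and is injective on the span of the normal forms.)
-/

open Finset

namespace TF

/-- The ideal generated by the triple commutators. -/
noncomputable def T3 : Submodule ℤ FA :=
  Submodule.span ℤ {f | ∃ a b u v w : FA,
    f = a * ((u * v - v * u) * w - w * (u * v - v * u)) * b}

/-! ### products of commutators -/

/-- Product of commutators of consecutive entries. -/
private def g3c {R : Type*} [Ring R] : List R → R
  | [] => 1
  | [_] => 0
  | a :: b :: l => (a * b - b * a) * g3c l

private theorem g3c_map {R S : Type*} [Ring R] [Ring S] (φ : R →+* S) :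
    ∀ l : List R, φ (g3c l) = g3c (l.map φ)
  | [] => by simp [g3c]
  | [_] => by simp [g3c]
  | a :: b :: l => by simp [g3c, g3c_map φ l]

/-- All commutators are central. -/
private def G3C (R : Type*) [Ring R] : Prop :=
  ∀ a b c : R, (a * b - b * a) * c = c * (a * b - b * a)

private theorem g3_quad {R : Type*} [Ring R] (hR : G3C R) (p a b d : R) :
    (p * a - a * p) * (b * d - d * b) = -((p * b - b * p) * (a * d - d * a)) := by
  have h1 := hR p (a * b) d
  have h2 := hR p a
  have h3 := hR p b
  have h4 := hR a d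
  have e1 : p * (a * b) - a * b * p = (p * a - a * p) * b + a * (p * b - b * p) := by noncomm_ring
  rw [e1] at h1
  have e2 : (p * a - a * p) * (b * d - d * b) + (p * b - b * p) * (a * d - d * a) =
      (((p * a - a * p) * b + a * (p * b - b * p)) * d -
        d * ((p * a - a * p) * b + a * (p * b - b * p))) := by
    have f1 : d * ((p * a - a * p) * b) = (p * a - a * p) * (d * b) := by
      rw [← mul_assoc, ← h2 d, mul_assoc]
    have f2 : a * (p * b - b * p) * d = (p * b - b * p) * (a * d) := by
      rw [← h3 a, mul_assoc]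
    have f3 : d * (a * (p * b - b * p)) = (p * b - b * p) * (d * a) := by
      rw [← mul_assoc, h3 (d * a)]
    rw [add_mul, mul_add, f1, f2, f3]
    noncomm_ring
  rw [h1, sub_self] at e2
  exact eq_neg_of_add_eq_zero_left e2

private theorem g3c_swap {R : Type*} [Ring R] (hR : G3C R) (a b : R) (l₂ : List R) :
    ∀ l₁ : List R, g3c (l₁ ++ a :: b :: l₂) = -g3c (l₁ ++ b :: a :: l₂)
  | [] => by
    simp only [List.nil_append, g3c]
    rw [← neg_mul, neg_sub]
  | [p] => by
    cases l₂ with
    | nil => simp [g3c]
    | cons d l₃ =>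
      simp only [List.cons_append, List.nil_append, g3c]
      rw [← mul_assoc, ← mul_assoc, g3_quad hR, neg_mul]
  | p :: q :: l₁ => by
    simp only [List.cons_append, g3c]
    rw [g3c_swap hR a b l₂ l₁, mul_neg]

private theorem g3c_perm {R : Type*} [Ring R] (hR : G3C R) {l l' : List R} (h : l.Perm l') :
    ∀ l₁ : List R, g3c (l₁ ++ l) = g3c (l₁ ++ l') ∨ g3c (l₁ ++ l) = -g3c (l₁ ++ l') := by
  induction h with
  | nil => intro l₁; left; rfl
  | cons x _ ih =>
    intro l₁
    have := ih (l₁ ++ [x])
    simpa using this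
  | swap x y l => intro l₁; right; exact g3c_swap hR _ _ _ _
  | trans _ _ ih1 ih2 =>
    intro l₁
    rcases ih1 l₁ with h1 | h1 <;> rcases ih2 l₁ with h2 | h2 <;> rw [h1, h2] <;> simp

private theorem g3c_odd {R : Type*} [Ring R] : ∀ l : List R, Odd l.length → g3c l = 0
  | [], h => by simp at h
  | [_], _ => rfl
  | a :: b :: l, h => by
    have h1 : Odd l.length := by
      simp only [List.length_cons] at h
      rcases h with ⟨k, hk⟩
      exact ⟨k - 1, by omega⟩
    rw [g3c, g3c_odd l h1, mul_zero]

private theorem g3c_dup {R : Type*} [Ring R] (hR : G3C R) (x : ℕ → R) (l : List ℕ)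
    (h : ¬ l.Nodup) : g3c (l.map x) = 0 := by
  classical
  obtain ⟨a, ha⟩ := List.exists_duplicate_iff_not_nodup.mpr h
  have h2 : 2 ≤ List.count a l := List.duplicate_iff_two_le_count.mp ha
  have h3 : a ∈ l := ha.mem
  have p1 := List.perm_cons_erase h3
  have h4 : a ∈ l.erase a := by
    rw [← List.count_pos_iff, List.count_erase_self]
    omega
  have p2 := List.perm_cons_erase h4
  have p3 : l.Perm (a :: a :: (l.erase a).erase a) := p1.trans (p2.cons a)
  have p4 := g3c_perm hR (p3.map x) []
  simp only [List.nil_append, List.map_cons, g3c, sub_self, zero_mul, neg_zero, or_self] at p4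
  exact p4

/-- Normal form pairs: `w` weakly increasing, `J` strictly increasing of even length. -/
private def g3NF : Set (List ℕ × List ℕ) :=
  {p | p.1.Pairwise (· ≤ ·) ∧ p.2.Pairwise (· < ·) ∧ Even p.2.length}

/-- The normal form element `x^w c_J`. -/
private def g3nf {R : Type*} [Ring R] (x : ℕ → R) (p : List ℕ × List ℕ) : R :=
  (p.1.map x).prod * g3c (p.2.map x)

private theorem g3nf_map {R S : Type*} [Ring R] [Ring S] (φ : R →+* S) (x : ℕ → R)
    (p : List ℕ × List ℕ) : φ (g3nf x p) = g3nf (fun i => φ (x i)) p := by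
  unfold g3nf
  rw [map_mul, map_list_prod, g3c_map, List.map_map, List.map_map]
  rfl

private theorem g3_mem {R : Type*} [Ring R] (hR : G3C R) (x : ℕ → R) (w J : List ℕ)
    (hw : w.Pairwise (· ≤ ·)) :
    (w.map x).prod * g3c (J.map x) ∈ Submodule.span ℤ (g3nf x '' g3NF) := by
  by_cases h1 : Even J.length
  · by_cases h2 : J.Nodup
    · have p1 := List.perm_insertionSort (· ≤ ·) J
      have s1 : (List.insertionSort (· ≤ ·) J).Pairwise (· ≤ ·) :=
        List.pairwise_insertionSort _ J
      have s2 : (List.insertionSort (· ≤ ·) J).Pairwise (· < ·) := by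
        have s3 : (List.insertionSort (· ≤ ·) J).Pairwise (· ≠ ·) := p1.nodup_iff.mpr h2
        exact (s1.and s3).imp (fun h => lt_of_le_of_ne h.1 h.2)
      have hm : (w, List.insertionSort (· ≤ ·) J) ∈ g3NF :=
        ⟨hw, s2, by rw [p1.length_eq]; exact h1⟩
      have h3 : g3nf x (w, List.insertionSort (· ≤ ·) J) ∈ Submodule.span ℤ (g3nf x '' g3NF) :=
        Submodule.subset_span ⟨_, hm, rfl⟩
      have h4 := g3c_perm hR (p1.map x).symm []
      simp only [List.nil_append] at h4
      unfold g3nf at h3
      rcases h4 with h4 | h4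
      · rw [h4]; exact h3
      · rw [h4, mul_neg]; exact Submodule.neg_mem _ h3
    · rw [g3c_dup hR x J h2, mul_zero]
      exact Submodule.zero_mem _
  · rw [g3c_odd _ (by rw [List.length_map]; exact Nat.not_even_iff_odd.mp h1), mul_zero]
    exact Submodule.zero_mem _

/-- The span of the products with letters at least `b`. -/
private def g3N {R : Type*} [Ring R] (x : ℕ → R) (b : ℕ) : Submodule ℤ R :=
  Submodule.span ℤ {f | ∃ w J : List ℕ, w.Pairwise (· ≤ ·) ∧ (∀ k ∈ w, b ≤ k) ∧
    f = (w.map x).prod * g3c (J.map x)}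

private theorem g3N_cons {R : Type*} [Ring R] (x : ℕ → R) (b k : ℕ) (h : b ≤ k) (f : R)
    (hf : f ∈ g3N x k) : x k * f ∈ g3N x b := by
  induction hf using Submodule.span_induction with
  | mem f hf =>
    obtain ⟨w, J, hw, hb, rfl⟩ := hf
    refine Submodule.subset_span ⟨k :: w, J, ?_, ?_, ?_⟩
    · exact List.pairwise_cons.mpr ⟨hb, hw⟩
    · intro m hm
      rcases List.mem_cons.mp hm with rfl | hm
      · exact h
      · exact h.trans (hb m hm)
    · rw [List.map_cons, List.prod_cons, mul_assoc]
  | zero => rw [mul_zero]; exact Submodule.zero_mem _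
  | add x y _ _ hx hy => rw [mul_add]; exact Submodule.add_mem _ hx hy
  | smul a x _ hx => rw [mul_smul_comm]; exact Submodule.smul_mem _ _ hx

private theorem g3N_left {R : Type*} [Ring R] (hR : G3C R) (x : ℕ → R) (i : ℕ) (J : List ℕ) :
    ∀ (w : List ℕ) (b : ℕ), w.Pairwise (· ≤ ·) → (∀ k ∈ w, b ≤ k) → b ≤ i →
      x i * ((w.map x).prod * g3c (J.map x)) ∈ g3N x b
  | [], b, _, _, hi => by
    refine Submodule.subset_span ⟨[i], J, by simp, by simpa using hi, by simp⟩
  | k :: w, b, hw, hb, hi => by
    have hw' := List.pairwise_cons.mp hw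
    have hk : b ≤ k := hb k (by simp)
    by_cases hik : i ≤ k
    · refine Submodule.subset_span ⟨i :: k :: w, J, ?_, ?_, ?_⟩
      · refine List.pairwise_cons.mpr ⟨?_, hw⟩
        intro m hm
        rcases List.mem_cons.mp hm with rfl | hm
        · exact hik
        · exact hik.trans (hw'.1 m hm)
      · intro m hm
        rcases List.mem_cons.mp hm with rfl | hm
        · exact hi
        · exact hb m hm
      · simp only [List.map_cons, List.prod_cons, mul_assoc]
    · push Not at hik
      have e1 : x i * (((k :: w).map x).prod * g3c (J.map x)) =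
          x k * (x i * ((w.map x).prod * g3c (J.map x))) +
            (w.map x).prod * g3c ((i :: k :: J).map x) := by
        rw [List.map_cons, List.prod_cons, List.map_cons, List.map_cons, g3c]
        rw [← mul_assoc ((w.map x).prod), ← hR, mul_assoc (x i * x k - x k * x i)]
        noncomm_ring
      rw [e1]
      refine Submodule.add_mem _ (g3N_cons x b k hk _ ?_) ?_
      · exact g3N_left hR x i J w k hw'.2 hw'.1 hik.le
      · exact Submodule.subset_span ⟨w, i :: k :: J, hw'.2, fun m hm => hb m (by simp [hm]), rfl⟩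

private theorem g3N_all {R : Type*} [Ring R] (hR : G3C R) (x : ℕ → R) (f : FA) :
    ev x f ∈ Submodule.span ℤ (g3nf x '' g3NF) := by
  have h0 : g3N x 0 ≤ Submodule.span ℤ (g3nf x '' g3NF) := by
    refine Submodule.span_le.mpr ?_
    rintro _ ⟨w, J, hw, _, rfl⟩
    exact g3_mem hR x w J hw
  apply h0
  induction f using MonoidAlgebra.induction_linear with
  | zero => rw [map_zero]; exact Submodule.zero_mem _
  | add f g hf hg => rw [map_add]; exact Submodule.add_mem _ hf hg
  | single w r =>
    have e1 : ev x (MonoidAlgebra.single w r) = r • FreeMonoid.lift x w :=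
      MonoidAlgebra.lift_single _ _ _
    rw [e1]
    refine Submodule.smul_mem _ _ ?_
    clear e1
    induction w using FreeMonoid.inductionOn' with
    | one =>
      rw [map_one]
      exact Submodule.subset_span ⟨[], [], by simp, by simp, by simp [g3c]⟩
    | of_mul i w ih =>
      rw [map_mul, FreeMonoid.lift_eval_of]
      generalize FreeMonoid.lift x w = y at ih
      induction ih using Submodule.span_induction with
      | mem f hf =>
        obtain ⟨w, J, hw, hb, rfl⟩ := hf
        exact g3N_left hR x i J w 0 hw hb (Nat.zero_le _)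
      | zero => rw [mul_zero]; exact Submodule.zero_mem _
      | add x y _ _ hx hy => rw [mul_add]; exact Submodule.add_mem _ hx hy
      | smul a x _ hx => rw [mul_smul_comm]; exact Submodule.smul_mem _ _ hx


/-! ### the exterior algebra -/

section Ext

variable {P : Type*} [CommRing P] {M : Type*} [AddCommGroup M] [Module P M]

private theorem g3_anti (a b : M) :
    ExteriorAlgebra.ι P a * ExteriorAlgebra.ι P b = -(ExteriorAlgebra.ι P b * ExteriorAlgebra.ι P a) :=
  eq_neg_of_add_eq_zero_left (ExteriorAlgebra.ι_add_mul_swap a b)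

/-- products of two vectors are central -/
private theorem g3_iota2 (a b : M) (u : ExteriorAlgebra P M) :
    (ExteriorAlgebra.ι P a * ExteriorAlgebra.ι P b) * u =
      u * (ExteriorAlgebra.ι P a * ExteriorAlgebra.ι P b) := by
  induction u using ExteriorAlgebra.induction with
  | algebraMap r => exact (Algebra.commutes r _).symm
  | ι c =>
    rw [mul_assoc, g3_anti b c, mul_neg, ← mul_assoc, g3_anti a c, neg_mul, neg_neg, mul_assoc]
  | mul u v hu hv => rw [← mul_assoc, hu, mul_assoc, hv, mul_assoc]
  | add u v hu hv => rw [mul_add, add_mul, hu, hv]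

private theorem g3_iota2c (a b : M) :
    ExteriorAlgebra.ι P a * ExteriorAlgebra.ι P b ∈ Subring.center (ExteriorAlgebra P M) :=
  Subring.mem_center_iff.mpr fun u => (g3_iota2 a b u).symm

private theorem g3_span (u : ExteriorAlgebra P M) :
    u ∈ Submodule.span (Subring.center (ExteriorAlgebra P M))
      ({1} ∪ Set.range (ExteriorAlgebra.ι P (M := M))) := by
  set N := Submodule.span (Subring.center (ExteriorAlgebra P M))
      ({1} ∪ Set.range (ExteriorAlgebra.ι P (M := M))) with hN
  have h1 : (1 : ExteriorAlgebra P M) ∈ N := Submodule.subset_span (Or.inl rfl)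
  have key : ∀ u : ExteriorAlgebra P M, ∀ v ∈ N, u * v ∈ N := by
    intro u
    induction u using ExteriorAlgebra.induction with
    | algebraMap r =>
      intro v hv
      have hz : algebraMap P (ExteriorAlgebra P M) r ∈ Subring.center (ExteriorAlgebra P M) :=
        Subring.mem_center_iff.mpr fun u => (Algebra.commutes r u).symm
      exact Submodule.smul_mem N (⟨_, hz⟩ : Subring.center (ExteriorAlgebra P M)) hv
    | ι c =>
      intro v hv
      induction hv using Submodule.span_induction with
      | mem v hv =>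
        rcases hv with rfl | ⟨a, rfl⟩
        · rw [mul_one]; exact Submodule.subset_span (Or.inr ⟨c, rfl⟩)
        · have := Submodule.smul_mem N
            (⟨_, g3_iota2c c a⟩ : Subring.center (ExteriorAlgebra P M)) h1
          rw [Subring.smul_def, smul_eq_mul, mul_one] at this
          exact this
      | zero => rw [mul_zero]; exact Submodule.zero_mem _
      | add x y _ _ hx hy => rw [mul_add]; exact Submodule.add_mem _ hx hy
      | smul z x _ hx =>
        have e : ExteriorAlgebra.ι P c * z • x = z • (ExteriorAlgebra.ι P c * x) := by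
          rw [Subring.smul_def, Subring.smul_def, smul_eq_mul, smul_eq_mul, ← mul_assoc,
            (Subring.mem_center_iff.mp z.2 _), mul_assoc]
        rw [e]
        exact Submodule.smul_mem _ _ hx
    | mul u v hu hv => intro w hw; rw [mul_assoc]; exact hu _ (hv _ hw)
    | add u v hu hv => intro w hw; rw [add_mul]; exact Submodule.add_mem _ (hu _ hw) (hv _ hw)
  have := key u 1 h1
  rwa [mul_one] at this

private theorem g3_central : G3C (ExteriorAlgebra P M) := by
  have hz : ∀ z ∈ Subring.center (ExteriorAlgebra P M), ∀ a : ExteriorAlgebra P M,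
      a * z = z * a := fun z hz => Subring.mem_center_iff.mp hz
  have hι : ∀ (a : M) (v : ExteriorAlgebra P M),
      ExteriorAlgebra.ι P a * v - v * ExteriorAlgebra.ι P a ∈
        Subring.center (ExteriorAlgebra P M) := by
    intro a v
    induction g3_span v using Submodule.span_induction with
    | mem v hv =>
      rcases hv with rfl | ⟨b, rfl⟩
      · rw [mul_one, one_mul, sub_self]; exact Subring.zero_mem _
      · exact Subring.sub_mem _ (g3_iota2c a b) (g3_iota2c b a)
    | zero => rw [mul_zero, zero_mul, sub_self]; exact Subring.zero_mem _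
    | add x y _ _ hx hy =>
      rw [mul_add, add_mul, add_sub_add_comm]; exact Subring.add_mem _ hx hy
    | smul z x _ hx =>
      have e : ExteriorAlgebra.ι P a * z • x - z • x * ExteriorAlgebra.ι P a =
          z * (ExteriorAlgebra.ι P a * x - x * ExteriorAlgebra.ι P a) := by
        rw [Subring.smul_def, smul_eq_mul, ← mul_assoc, hz z z.2 (ExteriorAlgebra.ι P a)]
        noncomm_ring
      rw [e]
      exact Subring.mul_mem _ z.2 hx
  have hall : ∀ u v : ExteriorAlgebra P M, u * v - v * u ∈
        Subring.center (ExteriorAlgebra P M) := by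
    intro u v
    induction g3_span u using Submodule.span_induction with
    | mem u hu =>
      rcases hu with rfl | ⟨b, rfl⟩
      · rw [mul_one, one_mul, sub_self]; exact Subring.zero_mem _
      · exact hι b v
    | zero => rw [mul_zero, zero_mul, sub_self]; exact Subring.zero_mem _
    | add x y _ _ hx hy =>
      rw [mul_add, add_mul, add_sub_add_comm]; exact Subring.add_mem _ hx hy
    | smul z x _ hx =>
      have e : z • x * v - v * z • x = z * (x * v - v * x) := by
        rw [Subring.smul_def, smul_eq_mul, ← mul_assoc v, hz z z.2 v]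
        noncomm_ring
      rw [e]
      exact Subring.mul_mem _ z.2 hx
  intro a b c
  exact (hz _ (hall a b) c).symm

/-- `v ∧ e_L = 0` when `v` occurs in `L`. -/
private theorem g3_wedge (v : M) : ∀ L : List M, v ∈ L →
    ExteriorAlgebra.ι P v * (L.map (ExteriorAlgebra.ι P)).prod = 0
  | [], h => by simp at h
  | a :: L, h => by
    rw [List.map_cons, List.prod_cons]
    rcases List.mem_cons.mp h with rfl | h
    · rw [← mul_assoc, ExteriorAlgebra.ι_sq_zero, zero_mul]
    · rw [← mul_assoc, g3_anti, neg_mul, mul_assoc, g3_wedge v L h, mul_zero, neg_zero]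

/-- value of the product of commutators of the `t_i + e_i` -/
private theorem g3_cval (t : ℕ → P) (e : ℕ → M) : ∀ L : List ℕ, Even L.length →
    g3c (L.map fun i => algebraMap P (ExteriorAlgebra P M) (t i) + ExteriorAlgebra.ι P (e i)) =
      (2 : P) ^ (L.length / 2) • (L.map fun i => ExteriorAlgebra.ι P (e i)).prod
  | [], _ => by simp [g3c]
  | [_], h => by simp at h
  | a :: b :: L, h => by
    have h1 : Even L.length := by
      simp only [List.length_cons] at h
      rcases h with ⟨k, hk⟩
      exact ⟨k - 1, by omega⟩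
    have h2 : (a :: b :: L).length / 2 = L.length / 2 + 1 := by
      simp only [List.length_cons]; omega
    have h3 : (algebraMap P (ExteriorAlgebra P M) (t a) + ExteriorAlgebra.ι P (e a)) *
        (algebraMap P (ExteriorAlgebra P M) (t b) + ExteriorAlgebra.ι P (e b)) -
        (algebraMap P (ExteriorAlgebra P M) (t b) + ExteriorAlgebra.ι P (e b)) *
        (algebraMap P (ExteriorAlgebra P M) (t a) + ExteriorAlgebra.ι P (e a)) =
        (2 : P) • (ExteriorAlgebra.ι P (e a) * ExteriorAlgebra.ι P (e b)) := by
      have c1 : algebraMap P (ExteriorAlgebra P M) (t a) * ExteriorAlgebra.ι P (e b) =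
        ExteriorAlgebra.ι P (e b) * algebraMap P (ExteriorAlgebra P M) (t a) :=
        Algebra.commutes _ _
      have c2 : algebraMap P (ExteriorAlgebra P M) (t b) * ExteriorAlgebra.ι P (e a) =
        ExteriorAlgebra.ι P (e a) * algebraMap P (ExteriorAlgebra P M) (t b) :=
        Algebra.commutes _ _
      have c3 : algebraMap P (ExteriorAlgebra P M) (t a) * algebraMap P (ExteriorAlgebra P M) (t b)
          = algebraMap P (ExteriorAlgebra P M) (t b) * algebraMap P (ExteriorAlgebra P M) (t a) :=
        Algebra.commutes _ _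
      rw [add_mul, mul_add, mul_add, add_mul, mul_add, mul_add, c1, c2, c3, two_smul,
        g3_anti (e b) (e a)]
      abel
    simp only [List.map_cons, g3c, List.prod_cons]
    rw [h3, g3_cval t e L h1, h2, pow_succ, mul_smul, smul_mul_assoc, mul_smul_comm, smul_comm,
      mul_assoc]

end Ext

/-! ### the test homomorphisms -/

/-- The vector attached to the letter `x_i`: a basis vector if `i ∈ J`, zero otherwise. -/
private noncomputable def g3e (J : List ℕ) (i : ℕ) : Fin J.length → MvPolynomial ℕ ℤ :=
  fun b => if J.get b = i then 1 else 0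

/-- The image of `x_i`. -/
private noncomputable def g3y (J : List ℕ) (i : ℕ) :
    ExteriorAlgebra (MvPolynomial ℕ ℤ) (Fin J.length → MvPolynomial ℕ ℤ) :=
  algebraMap (MvPolynomial ℕ ℤ) _ (MvPolynomial.X i) +
    ExteriorAlgebra.ι (MvPolynomial ℕ ℤ) (g3e J i)

/-- The coefficient of the top element. -/
private noncomputable def g3D (J : List ℕ) :
    ExteriorAlgebra (MvPolynomial ℕ ℤ) (Fin J.length → MvPolynomial ℕ ℤ) →ₗ[MvPolynomial ℕ ℤ]
      MvPolynomial ℕ ℤ :=
  ExteriorAlgebra.liftAlternating (Pi.single J.length Matrix.detRowAlternating)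

private theorem g3e_zero (J : List ℕ) (i : ℕ) (h : i ∉ J) : g3e J i = 0 := by
  funext b
  unfold g3e
  rw [if_neg]
  · rfl
  · rintro rfl
    exact h (List.get_mem J b)

private theorem g3D_top (J : List ℕ) (hJ : J.Nodup) :
    g3D J (J.map fun i => ExteriorAlgebra.ι (MvPolynomial ℕ ℤ) (g3e J i)).prod = 1 := by
  have h1 : (J.map fun i => ExteriorAlgebra.ι (MvPolynomial ℕ ℤ) (g3e J i)) =
      List.ofFn (fun a : Fin J.length => ExteriorAlgebra.ι (MvPolynomial ℕ ℤ)
        (g3e J (J.get a))) := by
    have h2 := List.map_ofFn (f := J.get)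
      (g := fun i => ExteriorAlgebra.ι (MvPolynomial ℕ ℤ) (g3e J i))
    rw [List.ofFn_get] at h2
    exact h2
  rw [h1, ← ExteriorAlgebra.ιMulti_apply]
  unfold g3D
  rw [ExteriorAlgebra.liftAlternating_apply_ιMulti, Pi.single_eq_same]
  have h3 : (fun a : Fin J.length => g3e J (J.get a)) =
      (1 : Matrix (Fin J.length) (Fin J.length) (MvPolynomial ℕ ℤ)) := by
    funext a b
    unfold g3e
    rw [Matrix.one_apply]
    by_cases h : a = b
    · rw [if_pos (by rw [h]), if_pos h]
    · rw [if_neg (fun h4 => h (hJ.injective_get h4).symm), if_neg h]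
  rw [h3]
  exact Matrix.det_one

private theorem g3D_val (J : List ℕ) (hJ : J.Pairwise (· < ·)) (hE : Even J.length)
    (p : List ℕ × List ℕ) (hp : p ∈ g3NF) (hl : J.length ≤ p.2.length) :
    g3D J (g3nf (g3y J) p) =
      if p.2 = J then (2 : MvPolynomial ℕ ℤ) ^ (J.length / 2) * (p.1.map (MvPolynomial.X (R := ℤ))).prod
        else 0 := by
  obtain ⟨w, K⟩ := p
  obtain ⟨_, hK, hKE⟩ := hp
  simp only at hl hK hKE ⊢
  have hJn : J.Nodup := hJ.imp (fun h => ne_of_lt h)
  have hKn : K.Nodup := hK.imp (fun h => ne_of_lt h)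
  have hc := g3_cval (MvPolynomial.X (R := ℤ)) (g3e J) K hKE
  unfold g3nf
  by_cases h : K = J
  · subst h
    rw [if_pos rfl]
    have hw : ∀ w : List ℕ, (w.map (g3y K)).prod *
        (K.map fun i => ExteriorAlgebra.ι (MvPolynomial ℕ ℤ) (g3e K i)).prod =
        (w.map (MvPolynomial.X (R := ℤ))).prod •
          (K.map fun i => ExteriorAlgebra.ι (MvPolynomial ℕ ℤ) (g3e K i)).prod := by
      intro w
      induction w with
      | nil => simp
      | cons i w ih =>
        have h0 : ExteriorAlgebra.ι (MvPolynomial ℕ ℤ) (g3e K i) *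
            (K.map fun i => ExteriorAlgebra.ι (MvPolynomial ℕ ℤ) (g3e K i)).prod = 0 := by
          by_cases hi : i ∈ K
          · have := g3_wedge (P := MvPolynomial ℕ ℤ) (g3e K i) (K.map (g3e K))
              (List.mem_map_of_mem hi)
            rw [List.map_map] at this
            exact this
          · rw [g3e_zero K i hi, map_zero, zero_mul]
        rw [List.map_cons, List.prod_cons, List.map_cons, List.prod_cons, mul_assoc, ih,
          mul_smul_comm, g3y, add_mul, h0, add_zero, ← Algebra.smul_def, smul_smul, mul_comm]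
    have hc' : g3c (K.map (g3y K)) = (2 : MvPolynomial ℕ ℤ) ^ (K.length / 2) •
      (K.map fun i => ExteriorAlgebra.ι (MvPolynomial ℕ ℤ) (g3e K i)).prod := hc
    rw [hc', mul_smul_comm, hw, map_smul, map_smul, g3D_top K hKn, smul_eq_mul, smul_eq_mul,
      mul_one]
  · rw [if_neg h]
    have hne : ∃ j ∈ K, j ∉ J := by
      by_contra hcon
      push Not at hcon
      have s1 : K.Subperm J := List.subperm_of_subset hKn hcon
      have s2 : K.Perm J := s1.perm_of_length_le hl
      exact h (s2.eq_of_pairwise (fun a b _ _ h1 h2 => absurd h2 (not_lt.mpr h1.le)) hK hJ)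
    obtain ⟨j, hjK, hjJ⟩ := hne
    have h0 : (K.map fun i => ExteriorAlgebra.ι (MvPolynomial ℕ ℤ) (g3e J i)).prod = 0 := by
      apply List.prod_eq_zero
      rw [List.mem_map]
      exact ⟨j, hjK, by rw [g3e_zero J j hjJ, map_zero]⟩
    have hc' : g3c (K.map (g3y J)) = 0 := by
      have e : g3c (K.map (g3y J)) = (2 : MvPolynomial ℕ ℤ) ^ (K.length / 2) •
        (K.map fun i => ExteriorAlgebra.ι (MvPolynomial ℕ ℤ) (g3e J i)).prod := hc
      rw [e, h0, smul_zero]
    rw [hc', mul_zero, map_zero]

private theorem g3_mono (w : List ℕ) : (w.map (MvPolynomial.X (R := ℤ))).prod =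
    MvPolynomial.monomial (Multiset.toFinsupp (w : Multiset ℕ)) 1 := by
  induction w with
  | nil => simp
  | cons i w ih =>
    rw [List.map_cons, List.prod_cons, ih, ← Multiset.cons_coe, ← Multiset.singleton_add, map_add,
      Multiset.toFinsupp_singleton, MvPolynomial.X, MvPolynomial.monomial_mul, one_mul]

/-- `T3` is killed by maps to rings with central commutators. -/
private theorem g3_kill {R : Type*} [Ring R] (hR : G3C R) (y : ℕ → R) (f : FA) (hf : f ∈ T3) :
    ev y f = 0 := by
  induction hf using Submodule.span_induction with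
  | mem f hf =>
    obtain ⟨a, b, u, v, w, rfl⟩ := hf
    simp only [map_mul, map_sub]
    rw [hR, sub_self, mul_zero, zero_mul]
  | zero => exact map_zero _
  | add x y _ _ hx hy => rw [map_add, hx, hy, add_zero]
  | smul a x _ hx => rw [map_zsmul, hx, smul_zero]

private theorem g3_indep (n : ℤ) (hn : n ≠ 0) (a : (List ℕ × List ℕ) →₀ ℤ)
    (ha : ∀ p ∈ a.support, p ∈ g3NF)
    (h : n • (a.sum fun p c => c • g3nf xx p) ∈ T3) : a = 0 := by
  classical
  by_contra h0
  have hne : a.support.Nonempty := Finsupp.support_nonempty_iff.mpr h0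
  obtain ⟨p₀, hp₀, hmin⟩ := Finset.exists_min_image a.support (fun p => p.2.length) hne
  have hNF := ha p₀ hp₀
  have h1 := g3_kill g3_central (g3y p₀.2) _ h
  have hxx : ∀ i, ev (g3y p₀.2) (xx i) = g3y p₀.2 i := by
    intro i
    have e1 : ev (g3y p₀.2) (xx i) = (1 : ℤ) • FreeMonoid.lift (g3y p₀.2) (FreeMonoid.of i) :=
      MonoidAlgebra.lift_single _ _ _
    rw [e1, FreeMonoid.lift_eval_of, one_smul]
  have h2 : ev (g3y p₀.2) (n • (a.sum fun p c => c • g3nf xx p)) =
      n • ∑ p ∈ a.support, a p • g3nf (g3y p₀.2) p := by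
    rw [map_zsmul, Finsupp.sum, map_sum]
    congr 1
    refine Finset.sum_congr rfl fun p _ => ?_
    rw [map_zsmul, g3nf_map]
    simp only [hxx]
  rw [h2] at h1
  have h3 := congrArg (g3D p₀.2) h1
  rw [map_zero, map_zsmul, map_sum] at h3
  have h4 : ∀ p ∈ a.support, g3D p₀.2 (a p • g3nf (g3y p₀.2) p) =
      if p.2 = p₀.2 then MvPolynomial.monomial (Multiset.toFinsupp (p.1 : Multiset ℕ))
        (a p * 2 ^ (p₀.2.length / 2)) else 0 := by
    intro p hp
    rw [map_zsmul, g3D_val p₀.2 hNF.2.1 hNF.2.2 p (ha p hp) (hmin p hp), g3_mono]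
    split_ifs
    · have e2 : (2 : MvPolynomial ℕ ℤ) ^ (p₀.2.length / 2) =
          MvPolynomial.C ((2 : ℤ) ^ (p₀.2.length / 2)) := by simp
      rw [e2, MvPolynomial.C_mul_monomial, ← map_zsmul, mul_one, smul_eq_mul]
    · exact smul_zero _
  rw [Finset.sum_congr rfl h4] at h3
  have h5 := congrArg (MvPolynomial.coeff (Multiset.toFinsupp (p₀.1 : Multiset ℕ))) h3
  rw [MvPolynomial.coeff_zero, MvPolynomial.coeff_smul, MvPolynomial.coeff_sum,
    Finset.sum_eq_single p₀] at h5
  · rw [if_pos rfl, MvPolynomial.coeff_monomial, if_pos rfl, smul_eq_mul] at h5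
    have h6 : a p₀ ≠ 0 := Finsupp.mem_support_iff.mp hp₀
    exact absurd h5 (mul_ne_zero hn (mul_ne_zero h6 (pow_ne_zero _ two_ne_zero)))
  · intro p hp hpp
    split_ifs with hJ
    · rw [MvPolynomial.coeff_monomial, if_neg]
      intro hm
      have hm' := Multiset.toFinsupp.injective hm
      have hperm : p.1.Perm p₀.1 := Multiset.coe_eq_coe.mp hm'
      have := hperm.eq_of_pairwise (fun a b _ _ h1 h2 => le_antisymm h1 h2) (ha p hp).1 hNF.1
      exact hpp (Prod.ext this hJ)
    · exact MvPolynomial.coeff_zero _
  · intro h6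
    exact absurd hp₀ h6

/-! ### the quotient ring -/

private theorem g3_left (g f : FA) (hf : f ∈ T3) : g * f ∈ T3 := by
  induction hf using Submodule.span_induction with
  | mem f hf =>
    obtain ⟨a, b, u, v, w, rfl⟩ := hf
    exact Submodule.subset_span ⟨g * a, b, u, v, w, by simp only [mul_assoc]⟩
  | zero => rw [mul_zero]; exact Submodule.zero_mem _
  | add x y _ _ hx hy => rw [mul_add]; exact Submodule.add_mem _ hx hy
  | smul a x _ hx => rw [mul_smul_comm]; exact Submodule.smul_mem _ _ hx

private theorem g3_right (g f : FA) (hf : f ∈ T3) : f * g ∈ T3 := by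
  induction hf using Submodule.span_induction with
  | mem f hf =>
    obtain ⟨a, b, u, v, w, rfl⟩ := hf
    exact Submodule.subset_span ⟨a, b * g, u, v, w, by simp only [mul_assoc]⟩
  | zero => rw [zero_mul]; exact Submodule.zero_mem _
  | add x y _ _ hx hy => rw [add_mul]; exact Submodule.add_mem _ hx hy
  | smul a x _ hx => rw [smul_mul_assoc]; exact Submodule.smul_mem _ _ hx

private def g3con : RingCon FA where
  r a b := a - b ∈ T3
  iseqv := {
    refl := fun a => by rw [sub_self]; exact Submodule.zero_mem _
    symm := fun {a b} h => by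
      have := Submodule.neg_mem _ h
      rwa [neg_sub] at this
    trans := fun {a b c} h h' => by
      have := Submodule.add_mem _ h h'
      rwa [sub_add_sub_cancel] at this }
  add' := fun {a b c d} h h' => by
    have := Submodule.add_mem _ h h'
    rwa [sub_add_sub_comm] at this
  mul' := fun {a b c d} h h' => by
    have e : a * c - b * d = (a - b) * c + b * (c - d) := by noncomm_ring
    show a * c - b * d ∈ T3
    rw [e]
    exact Submodule.add_mem _ (g3_right _ _ h) (g3_left _ _ h')

private theorem g3_mk (f g : FA) : g3con.mk' f = g3con.mk' g ↔ f - g ∈ T3 :=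
  RingCon.eq g3con

private theorem g3_quot : G3C g3con.Quotient := by
  intro a b c
  obtain ⟨a, rfl⟩ := RingCon.mk'_surjective g3con a
  obtain ⟨b, rfl⟩ := RingCon.mk'_surjective g3con b
  obtain ⟨c, rfl⟩ := RingCon.mk'_surjective g3con c
  rw [← map_mul, ← map_mul, ← map_sub, ← map_mul, ← map_mul, g3_mk]
  exact Submodule.subset_span ⟨1, 1, a, b, c, by rw [one_mul, mul_one]⟩

private theorem g3_nform (f : FA) : ∃ a : (List ℕ × List ℕ) →₀ ℤ, (∀ p ∈ a.support, p ∈ g3NF) ∧
    f - (a.sum fun p c => c • g3nf xx p) ∈ T3 := by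
  have h1 := g3N_all g3_quot (fun i => g3con.mk' (xx i)) f
  have h2 : ev (fun i => g3con.mk' (xx i)) = g3con.mk' := by
    apply MonoidAlgebra.ringHom_ext'
    · exact Subsingleton.elim _ _
    · apply FreeMonoid.hom_eq
      intro i
      have e1 : ev (fun i => g3con.mk' (xx i)) (xx i) =
        (1 : ℤ) • FreeMonoid.lift (fun i => g3con.mk' (xx i)) (FreeMonoid.of i) :=
        MonoidAlgebra.lift_single _ _ _
      rw [FreeMonoid.lift_eval_of, one_smul] at e1
      exact e1
  rw [h2, Finsupp.mem_span_image_iff_linearCombination] at h1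
  obtain ⟨a, ha, h3⟩ := h1
  refine ⟨a, fun p hp => ha hp, ?_⟩
  rw [← g3_mk, ← h3, Finsupp.linearCombination_apply, Finsupp.sum, Finsupp.sum, map_sum]
  refine Finset.sum_congr rfl fun p _ => ?_
  rw [map_zsmul, g3nf_map]

theorem isPure_T3 : IsPure T3 := by
  intro n f hn hf
  obtain ⟨a, ha, h1⟩ := g3_nform f
  have h2 : n • (a.sum fun p c => c • g3nf xx p) ∈ T3 := by
    have h3 := Submodule.sub_mem _ hf (Submodule.smul_mem _ n h1)
    rwa [← smul_sub, sub_sub_cancel] at h3
  have h3 := g3_indep n hn a ha h2
  rw [h3, Finsupp.sum_zero_index, sub_zero] at h1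
  exact h1

private theorem g3_ct (f : FA) : ct f = ev (fun _ => (0 : ℤ)) f := by
  induction f using MonoidAlgebra.induction_linear with
  | zero => rw [map_zero]; rfl
  | add f g hf hg =>
    rw [map_add, ← hf, ← hg]
    rfl
  | single w r =>
    have e1 : ev (fun _ => (0 : ℤ)) (MonoidAlgebra.single w r) =
      r • FreeMonoid.lift (fun _ => (0 : ℤ)) w := MonoidAlgebra.lift_single _ _ _
    rw [e1]
    show (MonoidAlgebra.single w r).coeff 1 = _
    classical
    rw [MonoidAlgebra.coeff_single_apply]
    by_cases h : w = 1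
    · rw [if_pos h, h, map_one, smul_eq_mul, mul_one]
    · rw [if_neg h]
      have h0 : FreeMonoid.lift (fun _ : ℕ => (0 : ℤ)) w = 0 := by
        induction w using FreeMonoid.casesOn with
        | one => exact absurd rfl h
        | of_mul x xs => rw [map_mul, FreeMonoid.lift_eval_of, zero_mul]
      rw [h0, smul_zero]

theorem isTI_T3 : IsTI T3 where
  aug := by
    intro f hf
    rw [g3_ct]
    exact g3_kill (fun a b c => by ring) _ f hf
  left := g3_left
  right := g3_right
  subst := by
    intro u _ f hf
    induction hf using Submodule.span_induction with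
    | mem f hf =>
      obtain ⟨a, b, p, v, w, rfl⟩ := hf
      refine Submodule.subset_span ⟨ev u a, ev u b, ev u p, ev u v, ev u w, ?_⟩
      simp only [map_mul, map_sub]
    | zero => rw [map_zero]; exact Submodule.zero_mem _
    | add x y _ _ hx hy => rw [map_add]; exact Submodule.add_mem _ hx hy
    | smul a x _ hx => rw [map_zsmul]; exact Submodule.smul_mem _ _ hx

theorem hasUnit_T3 : HasUnit T3 := by
  classical
  refine ⟨1 * ((xx 0 * xx 1 - xx 1 * xx 0) * xx 2 - xx 2 * (xx 0 * xx 1 - xx 1 * xx 0)) * 1,
    Submodule.subset_span ⟨1, 1, xx 0, xx 1, xx 2, rfl⟩,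
    FreeMonoid.of 0 * FreeMonoid.of 1 * FreeMonoid.of 2, Or.inl ?_⟩
  rw [one_mul, mul_one]
  unfold xx
  simp only [sub_mul, mul_sub, MonoidAlgebra.single_mul_single, mul_one, MonoidAlgebra.coeff_sub,
    Finsupp.sub_apply, MonoidAlgebra.coeff_single_apply]
  rw [if_pos True.intro, if_neg, if_neg, if_neg]
  · norm_num
  all_goals
    intro h
    have := congrArg FreeMonoid.toList h
    simp at this

end TF
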