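import Pool.Agent.H66.TF.Internal
import Pool.Agent.H34.Q1.Grass

/-!
# T-ideals which contain a pure T-ideal up to bounded torsion
-/

open Finset Equiv

namespace TF

/-- `T` contains, up to a positive integer factor, a pure T-ideal with a unit coefficient. -/
def GoodT (T : Submodule ℤ FA) : Prop :=
  ∃ (n : ℕ) (Q : Submodule ℤ FA), 0 < n ∧ IsTI Q ∧ IsPure Q ∧ HasUnit Q ∧ ∀ f ∈ Q, (n : ℤ) • f ∈ T

theorem isPure_mul {P Q : Submodule ℤ FA} (hP : IsTI P) (hQ : IsTI Q) (hP' : IsPure P)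
    (hQ' : IsPure Q) : IsPure (P * Q) :=
  pure_mul _ _ hP' hQ' (fun f hf g => hP.right g f hf) (fun f hf g => hQ.left g f hf)

/-- sum of a T-ideal and `p` times the augmentation ideal. -/
noncomputable def plusP (T : Submodule ℤ FA) (p : ℕ) : Submodule ℤ FA where
  carrier := {f | ∃ t ∈ T, ∃ g, ct g = 0 ∧ f = t + (p : ℤ) • g}
  add_mem' := by
    rintro _ _ ⟨t, ht, g, hg, rfl⟩ ⟨t', ht', g', hg', rfl⟩
    refine ⟨t + t', T.add_mem ht ht', g + g', ?_, ?_⟩
    · have : g + g' ∈ Fplus := Fplus.add_mem hg hg'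
      exact this
    · rw [smul_add]; abel
  zero_mem' := ⟨0, T.zero_mem, 0, Fplus.zero_mem, by simp⟩
  smul_mem' := by
    rintro c _ ⟨t, ht, g, hg, rfl⟩
    refine ⟨c • t, T.smul_mem c ht, c • g, Fplus.smul_mem c hg, ?_⟩
    rw [smul_add, smul_comm]

theorem isTI_plusP {T : Submodule ℤ FA} (hT : IsTI T) (p : ℕ) : IsTI (plusP T p) where
  aug := by
    rintro _ ⟨t, ht, g, hg, rfl⟩
    have h1 : t ∈ Fplus := hT.aug t ht
    exact Fplus.add_mem h1 (Fplus.smul_mem _ hg)
  left := by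
    rintro h _ ⟨t, ht, g, hg, rfl⟩
    exact ⟨h * t, hT.left h t ht, h * g, isTI_Fplus.left h g hg, by
      rw [mul_add, mul_smul_comm]⟩
  right := by
    rintro h _ ⟨t, ht, g, hg, rfl⟩
    exact ⟨t * h, hT.right h t ht, g * h, isTI_Fplus.right h g hg, by
      rw [add_mul, smul_mul_assoc]⟩
  subst := by
    rintro u hu _ ⟨t, ht, g, hg, rfl⟩
    refine ⟨ev u t, hT.subst u hu t ht, ev u g, ?_, ?_⟩
    · rw [ct_ev u hu, hg]
    · rw [map_add, map_zsmul]

/-- the main step: a T-ideal with a unit coefficient which is good contains a pure one. -/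
theorem exists_pure_of_good {T : Submodule ℤ FA} (hT : IsTI T) (hU : HasUnit T) (h : GoodT T) :
    ∃ Q : Submodule ℤ FA, IsTI Q ∧ IsPure Q ∧ HasUnit Q ∧ Q ≤ T := by
  obtain ⟨n, Q, hn, h1, h2, h3, h4⟩ := h
  induction n using Nat.strong_induction_on generalizing Q with
  | _ n ih =>
    by_cases hn1 : n = 1
    · subst hn1
      exact ⟨Q, h1, h2, h3, fun f hf => by simpa using h4 f hf⟩
    · obtain ⟨p, hp, k, rfl⟩ := Nat.exists_prime_and_dvd hn1
      have hk : 0 < k := Nat.pos_of_mul_pos_left hn |> fun h => by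
        rcases Nat.eq_zero_or_pos k with h0 | h0
        · subst h0; simp at hn
        · exact h0
      obtain ⟨f, hf, w, hw⟩ := hU
      obtain ⟨R, r1, r2, r3, r4⟩ := internal (plusP T p) (isTI_plusP hT p) p hp
        (fun g hg => ⟨0, T.zero_mem, g, hg, by simp⟩) f
        ⟨f, hf, 0, Fplus.zero_mem, by simp⟩ ⟨w, by
          rcases hw with hw | hw <;> rw [hw]
          · intro hd
            have := Int.eq_one_of_dvd_one (by positivity) hd
            exact hp.one_lt.ne' (by exact_mod_cast this)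
          · intro hd
            rw [dvd_neg] at hd
            have := Int.eq_one_of_dvd_one (by positivity) hd
            exact hp.one_lt.ne' (by exact_mod_cast this)⟩
      refine ih k (by nlinarith [hp.two_le]) (Q * R) hk (isTI_mul _ _ h1 r1)
        (isPure_mul h1 r1 h2 r2) (hasUnit_mul _ _ h1 r1 h3 r3) ?_
      intro g hg
      induction hg using Submodule.mul_induction_on' with
      | mem_mul_mem a ha b hb =>
        obtain ⟨t, ht, g', hg', rfl⟩ := r4 hb
        rw [mul_add, smul_add]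
        refine T.add_mem (T.smul_mem _ (hT.left a t ht)) ?_
        rw [mul_smul_comm, smul_smul, ← Nat.cast_mul, mul_comm k p, ← smul_mul_assoc]
        exact hT.right g' _ (h4 a ha)
      | add y _ y' _ h h' => rw [smul_add]; exact T.add_mem h h'

theorem GoodT.mul {T T' : Submodule ℤ FA} (h : GoodT T) (h' : GoodT T') : GoodT (T * T') := by
  obtain ⟨n, Q, hn, h1, h2, h3, h4⟩ := h
  obtain ⟨n', Q', hn', h1', h2', h3', h4'⟩ := h'
  refine ⟨n * n', Q * Q', Nat.mul_pos hn hn', isTI_mul _ _ h1 h1', isPure_mul h1 h1' h2 h2',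
    hasUnit_mul _ _ h1 h1' h3 h3', ?_⟩
  intro g hg
  induction hg using Submodule.mul_induction_on' with
  | mem_mul_mem a ha b hb =>
    rw [Nat.cast_mul, mul_smul, ← mul_smul_comm, ← smul_mul_assoc]
    exact Submodule.mul_mem_mul (h4 a ha) (h4' b hb)
  | add y _ y' _ h h' => rw [smul_add]; exact Submodule.add_mem _ h h'

theorem GoodT.of_smul {T T' : Submodule ℤ FA} (h : GoodT T) (n : ℕ) (hn : 0 < n)
    (hT : ∀ f ∈ T, (n : ℤ) • f ∈ T') : GoodT T' := by
  obtain ⟨n', Q, hn', h1, h2, h3, h4⟩ := h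
  refine ⟨n * n', Q, Nat.mul_pos hn hn', h1, h2, h3, fun f hf => ?_⟩
  rw [Nat.cast_mul, mul_smul]
  exact hT _ (h4 f hf)

theorem good_IM (N : ℕ) : GoodT (IM N) := by
  obtain ⟨Q, h1, h2, h3, h4⟩ := chain N
  exact ⟨1, Q, one_pos, h1, h2, h3, fun f hf => by
    rw [Nat.cast_one, one_smul]; exact IM_succ_le N (h4 hf)⟩

theorem good_T3 : GoodT T3 :=
  ⟨1, T3, one_pos, isTI_T3, isPure_T3, hasUnit_T3, fun f hf => by
    rw [Nat.cast_one, one_smul]; exact hf⟩

theorem good_pure {T : Submodule ℤ FA} (h1 : IsTI T) (h2 : IsPure T) (h3 : HasUnit T) : GoodT T :=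
  ⟨1, T, one_pos, h1, h2, h3, fun f hf => by rw [Nat.cast_one, one_smul]; exact hf⟩

/-- the saturation. -/
noncomputable def sat (T : Submodule ℤ FA) : Submodule ℤ FA where
  carrier := {f | ∃ k : ℕ, 0 < k ∧ (k : ℤ) • f ∈ T}
  add_mem' := by
    rintro f g ⟨k, hk, h⟩ ⟨l, hl, h'⟩
    refine ⟨k * l, Nat.mul_pos hk hl, ?_⟩
    rw [smul_add]
    refine T.add_mem ?_ ?_
    · rw [Nat.cast_mul, mul_comm, mul_smul]; exact T.smul_mem _ h
    · rw [Nat.cast_mul, mul_smul]; exact T.smul_mem _ h'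
  zero_mem' := ⟨1, one_pos, by rw [smul_zero]; exact T.zero_mem⟩
  smul_mem' := by
    rintro c f ⟨k, hk, h⟩
    exact ⟨k, hk, by rw [smul_comm]; exact T.smul_mem _ h⟩

theorem le_sat (T : Submodule ℤ FA) : T ≤ sat T := fun f hf =>
  ⟨1, one_pos, by rw [Nat.cast_one, one_smul]; exact hf⟩

theorem isTI_sat {T : Submodule ℤ FA} (hT : IsTI T) : IsTI (sat T) where
  aug := by
    rintro f ⟨k, hk, h⟩
    have h1 : (k : ℤ) • f ∈ Fplus := hT.aug _ h
    exact isPure_Fplus _ _ (by exact_mod_cast hk.ne') h1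
  left := by
    rintro g f ⟨k, hk, h⟩
    exact ⟨k, hk, by rw [← mul_smul_comm]; exact hT.left g _ h⟩
  right := by
    rintro g f ⟨k, hk, h⟩
    exact ⟨k, hk, by rw [← smul_mul_assoc]; exact hT.right g _ h⟩
  subst := by
    rintro u hu f ⟨k, hk, h⟩
    exact ⟨k, hk, by rw [← map_zsmul]; exact hT.subst u hu _ h⟩

theorem isPure_sat (T : Submodule ℤ FA) : IsPure (sat T) := by
  rintro n f hn ⟨k, hk, h⟩
  refine ⟨n.natAbs * k, Nat.mul_pos (Int.natAbs_pos.2 hn) hk, ?_⟩
  rw [smul_smul] at h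
  rcases Int.natAbs_eq n with h1 | h1
  · rw [Nat.cast_mul, mul_comm, ← h1]; exact h
  · rw [Nat.cast_mul, mul_comm]
    have : (k : ℤ) * (n.natAbs : ℤ) = -((k : ℤ) * n) := by rw [h1]; simp
    rw [this, neg_smul]
    exact T.neg_mem h

theorem good_sat {T : Submodule ℤ FA} (hT : IsTI T) (hU : HasUnit T) : GoodT (sat T) := by
  refine good_pure (isTI_sat hT) (isPure_sat T) ?_
  obtain ⟨f, hf, w, hw⟩ := hU
  exact ⟨f, le_sat T hf, w, hw⟩

end TF
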