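import Pool.Agent.H66.TF.RingForm

/-!
# From a pure T-ideal inside the identities to a torsion-free cover
-/

universe u v

open Unitization

namespace TF

open RingFormAux

theorem hasUnit_TA {A : Type v} [NonUnitalRing A] (hA : IsPIRing A) : HasUnit (TA A) := by
  obtain ⟨f0, ⟨w0, hw0⟩, hf0⟩ := hA
  refine ⟨jj f0, ⟨ct_jj f0, fun a => ?_⟩, io w0, ?_⟩
  · rw [ev_jj, hf0 (fh a), Unitization.inr_zero]
  · rw [jj_coeff]
    exact hw0

theorem ring_core (A : Type u) [NonUnitalRing A] (hA : IsFreePIRing A)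
    (Q : Submodule ℤ FA) (hQ : IsTI Q) (hpure : IsPure Q) (hU : HasUnit Q) (hQT : Q ≤ TA A) :
    ∃ (B : Type u) (_ : NonUnitalRing B), IsFreePIRing B ∧
      (∀ (n : ℕ) (b : B), n ≠ 0 → n • b = 0 → b = 0) ∧
      ∃ φ : B →ₙ+* A, Function.Surjective φ := by
  obtain ⟨-, X, hX, S, π, hπ, hker⟩ := hA
  obtain ⟨g, hgQ, w, hw⟩ := hU
  let S' : Set (FreeRng ℕ) := {f | jj f ∈ Q}
  let B : NonUnitalSubring ((FreeRng X →ₙ+* FreeRng ℕ) → FA ⧸ toId hQ) := (PhiX X hQ).range
  let Φ : FreeRng X →ₙ+* B := (PhiX X hQ).rangeRestrict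
  have hΦsurj : Function.Surjective Φ := (PhiX X hQ).rangeRestrict_surjective
  have hΦ0 : ∀ f, Φ f = 0 ↔ ∀ φ : FreeRng X →ₙ+* FreeRng ℕ, jj (φ f) ∈ Q := by
    intro f
    rw [← PhiX_eq_zero X hQ f]
    constructor
    · intro h
      exact congrArg Subtype.val h
    · intro h
      exact Subtype.ext h
  -- `B` is in the variety
  have hBvar : InVariety S' B := by
    intro f hf ψ
    choose h hh using fun i => hΦsurj (ψ (ltr i))
    have e : ψ = Φ.comp (fh h) := by
      apply hom_ext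
      intro i
      rw [NonUnitalRingHom.comp_apply, fh_ltr, hh]
    rw [e, NonUnitalRingHom.comp_apply, hΦ0]
    intro φ
    have e2 : φ (fh h f) = fh (fun i => φ (h i)) f := by
      have e3 : φ.comp (fh h) = fh (fun i => φ (h i)) := by
        apply hom_ext
        intro i
        rw [NonUnitalRingHom.comp_apply, fh_ltr, fh_ltr]
      exact congrArg (fun ψ : FreeRng ℕ →ₙ+* FreeRng ℕ => ψ f) e3
    rw [e2, ← ev_jj_fh]
    exact hQ.subst _ (fun i => ct_jj _) _ hf
  -- the kernel of `Φ` is the T-ideal of the variety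
  have hkerΦ : ∀ f, Φ f = 0 ↔ f ∈ TVariety S' X := by
    intro f
    constructor
    · intro hf R _ hR χ
      obtain ⟨φ, χ', hχ⟩ := exists_factor χ f
      rw [← hχ]
      exact hR (φ f) ((hΦ0 f).1 hf φ) χ'
    · intro hf
      exact hf B hBvar Φ
  -- `A` is in the variety
  have hAvar : InVariety S' A := fun f hf => satisfies_of_mem_TA f (hQT hf)
  have hle : ∀ f, Φ f = 0 → π f = 0 := fun f hf => (hkerΦ f).1 hf A hAvar π
  have hwd : ∀ f g, Φ f = Φ g → π f = π g := by
    intro f g h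
    have h1 : Φ (f - g) = 0 := by rw [map_sub, h, sub_self]
    have h2 := hle _ h1
    rwa [map_sub, sub_eq_zero] at h2
  refine ⟨B, inferInstance, ⟨?_, X, hX, S', Φ, hΦsurj, hkerΦ⟩, ?_, ?_⟩
  · obtain ⟨g', rfl⟩ := exists_jj g (hQ.aug g hgQ)
    have hw1 : w ≠ 1 := by
      rintro rfl
      have h0 : (jj g').coeff 1 = 0 := ct_jj g'
      rw [h0] at hw
      omega
    obtain ⟨w', rfl⟩ := exists_io w hw1
    rw [jj_coeff] at hw
    exact ⟨g', ⟨w', hw⟩, hBvar g' hgQ⟩
  · intro n b hn hb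
    obtain ⟨f, rfl⟩ := hΦsurj b
    rw [← map_nsmul, hΦ0] at hb
    rw [hΦ0]
    intro φ
    have h1 := hb φ
    rw [map_nsmul, map_nsmul] at h1
    apply hpure (n : ℤ) _ (by exact_mod_cast hn)
    rwa [natCast_zsmul]
  · choose s hs using hΦsurj
    refine ⟨{ toFun := fun b => π (s b), map_mul' := ?_, map_zero' := ?_, map_add' := ?_ }, ?_⟩
    · intro a b
      rw [← map_mul]
      apply hwd
      rw [hs, map_mul, hs, hs]
    · apply hle
      rw [hs]
    · intro a b
      rw [← map_add]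
      apply hwd
      rw [hs, map_add, hs, hs]
    · intro a
      obtain ⟨f, rfl⟩ := hπ a
      refine ⟨Φ f, ?_⟩
      exact hwd _ _ (hs _)

end TF
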