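import Pool.Agent.H34.Q1.CDefs
import Pool.Agent.H34.Q1.RingCore
import Pool.Agent.H34.Q1.Int2

/-!
# Torsion-free covers of free PI rings under a torsion condition
-/

universe u v

open Unitization

namespace TF

open RingFormAux

/-- the T-ideal of a type. -/
noncomputable def GT : Option ℕ → Submodule ℤ FA
  | some N => IM (N + 1)
  | none => T3

theorem isTI_GT (o : Option ℕ) : IsTI (GT o) := by
  cases o with
  | none => exact isTI_T3
  | some N => exact isTI_IM (N + 1) (Nat.succ_pos N)

theorem good_GT (o : Option ℕ) : GoodT (GT o) := by
  cases o with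
  | none => exact good_T3
  | some N =>
    obtain ⟨Q, h1, h2, h3, h4⟩ := chain N
    exact ⟨1, Q, one_pos, h1, h2, h3, fun f hf => by
      rw [Nat.cast_one, one_smul]; exact h4 hf⟩

/-- product with the T-ideals of a list of types. -/
noncomputable def GP : Submodule ℤ FA → List (Option ℕ) → Submodule ℤ FA
  | T, [] => T
  | T, o :: L => GP (T * GT o) L

theorem good_GP (L : List (Option ℕ)) : ∀ T, GoodT T → GoodT (GP T L) := by
  induction L with
  | nil => intro T h; exact h
  | cons o L ih => intro T h; exact ih _ (h.mul (good_GT o))

theorem isTI_GP (L : List (Option ℕ)) : ∀ T, IsTI T → IsTI (GP T L) := by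
  induction L with
  | nil => intro T h; exact h
  | cons o L ih => intro T h; exact ih _ (isTI_mul _ _ h (isTI_GT o))

theorem ev_const {A : Type v} [NonUnitalRing A] (a : ℕ → A) (f : FA) :
    ∃ (c : ℤ) (b : A), ev (fun i => (inr (a i) : Unitization ℤ A)) f =
      (c : Unitization ℤ A) + inr b := by
  have h1 : ct (f - (ct f : FA)) = 0 := by
    rw [ct_eq, map_sub, ← ct_eq, map_intCast, Int.cast_id, sub_self]
  obtain ⟨b, hb⟩ := ev_eq_inr a _ h1
  refine ⟨ct f, b, ?_⟩
  rw [map_sub, sub_eq_iff_eq_add, map_intCast] at hb
  rw [hb, add_comm]

theorem inr_comm {A : Type v} [NonUnitalRing A] (c d : ℤ) (a b : A) :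
    ((c : Unitization ℤ A) + inr a) * ((d : Unitization ℤ A) + inr b) -
      ((d : Unitization ℤ A) + inr b) * ((c : Unitization ℤ A) + inr a) =
      inr (a * b - b * a) := by
  have h1 := Int.cast_commute c (inr b : Unitization ℤ A)
  have h2 := Int.cast_commute d (inr a : Unitization ℤ A)
  have h3 := Int.cast_commute c (d : Unitization ℤ A)
  rw [inr_sub, inr_mul, inr_mul]
  rw [add_mul, mul_add, mul_add, add_mul, mul_add, mul_add, h1.eq, ← h2.eq, h3.eq]
  abel

theorem typ_eval {A : Type v} [NonUnitalRing A] (a : ℕ → A) (n : ℕ) (L : List (Option ℕ)) :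
    ∀ T : Submodule ℤ FA,
      (∀ f ∈ T, ∀ gs : List (Unitization ℤ A), List.Forall₂ (TypVal A) L gs →
        n • (ev (fun i => (inr (a i) : Unitization ℤ A)) f * gs.prod) = 0) →
      ∀ f ∈ GP T L, n • ev (fun i => (inr (a i) : Unitization ℤ A)) f = 0 := by
  induction L with
  | nil =>
    intro T h f hf
    have := h f hf [] List.Forall₂.nil
    simpa using this
  | cons o L ih =>
    intro T h
    apply ih
    intro f hf gs hgs
    induction hf using Submodule.mul_induction_on' with
    | mem_mul_mem f0 hf0 g hg =>
      -- induction over the generators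
      have key : ∀ g ∈ GT o, n • (ev (fun i => (inr (a i) : Unitization ℤ A)) f0 *
          ev (fun i => (inr (a i) : Unitization ℤ A)) g * gs.prod) = 0 := by
        intro g hg
        cases o with
        | none =>
          change g ∈ T3 at hg
          unfold T3 at hg
          induction hg using Submodule.span_induction with
          | mem y hy =>
            obtain ⟨x, y', u, v, w, rfl⟩ := hy
            have h1 := h f0 hf0 (ev (fun i => (inr (a i) : Unitization ℤ A))
              (x * ((u * v - v * u) * w - w * (u * v - v * u)) * y') :: gs)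
              (List.Forall₂.cons ?_ hgs)
            · rw [List.prod_cons] at h1
              refine Eq.trans ?_ h1
              congr 1
              exact mul_assoc (G := Unitization ℤ A) _ _ _
            · obtain ⟨cu, bu, hu⟩ := ev_const a u
              obtain ⟨cv, bv, hv⟩ := ev_const a v
              obtain ⟨cw, bw, hw⟩ := ev_const a w
              refine ⟨bu, bv, bw, ev (fun i => (inr (a i) : Unitization ℤ A)) x,
                ev (fun i => (inr (a i) : Unitization ℤ A)) y', ?_⟩
              rw [map_mul, map_mul, map_sub, map_mul, map_mul, map_sub, map_mul, map_mul, hu, hv, hw,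
                inr_comm]
              have h2 := inr_comm (A := A) 0 cw (bu * bv - bv * bu) bw
              rw [Int.cast_zero, zero_add] at h2
              rw [h2]
          | zero => simp
          | add y y' _ _ h1 h2 =>
            rw [map_add, mul_add, add_mul, smul_add, h1, h2, add_zero]
          | smul c y _ h1 =>
            rw [map_zsmul, mul_smul_comm, smul_mul_assoc, smul_comm, h1, smul_zero]
        | some N =>
          change g ∈ IM (N + 1) at hg
          unfold IM at hg
          induction hg using Submodule.span_induction with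
          | mem y hy =>
            obtain ⟨w, x, hx, rfl⟩ := hy
            have h1 := h f0 hf0 (ev (fun i => (inr (a i) : Unitization ℤ A)) (cap (N + 1) w x) :: gs)
              (List.Forall₂.cons ?_ hgs)
            · rw [List.prod_cons] at h1
              refine Eq.trans ?_ h1
              congr 1
              exact mul_assoc (G := Unitization ℤ A) _ _ _
            · choose b hb using fun i => ev_eq_inr a (x i) (hx i)
              refine ⟨fun i => ev (fun i => (inr (a i) : Unitization ℤ A)) (w i), b, ?_⟩
              unfold cap
              rw [map_sum]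
              refine Finset.sum_congr rfl fun σ _ => ?_
              rw [map_zsmul, map_mul, map_list_prod, List.map_ofFn]
              congr 3
              congr 1
              funext i
              simp only [Function.comp_apply, map_mul]
              rw [hb]
          | zero => simp
          | add y y' _ _ h1 h2 =>
            rw [map_add, mul_add, add_mul, smul_add, h1, h2, add_zero]
          | smul c y _ h1 =>
            rw [map_zsmul, mul_smul_comm, smul_mul_assoc, smul_comm, h1, smul_zero]
      rw [map_mul]
      exact key g hg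
    | add y _ y' _ h1 h2 =>
      rw [map_add, add_mul, smul_add, h1, h2, add_zero]

theorem good_TA {A : Type v} [NonUnitalRing A] (hA : IsPIRing A) (h : TorCond A) :
    GoodT (TA A) := by
  obtain ⟨n, L, hn, h⟩ := h
  have h1 := good_GP L _ (good_sat (isTI_TA A) (hasUnit_TA hA))
  refine h1.of_smul n hn ?_
  intro f hf
  refine ⟨?_, fun a => ?_⟩
  · have := (isTI_GP L _ (isTI_sat (isTI_TA A))).aug f hf
    rw [ct_eq, map_zsmul, ← ct_eq, this, smul_zero]
  · rw [map_zsmul, natCast_zsmul]
    refine typ_eval a n L _ ?_ f hf
    rintro g ⟨k, hk, hg⟩ gs hgs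
    obtain ⟨t, ht⟩ := ev_eq_inr a g ((isTI_sat (isTI_TA A)).aug g ⟨k, hk, hg⟩)
    rw [ht]
    refine h t ⟨k, hk, ?_⟩ gs hgs
    have h2 := hg.2 a
    rw [map_zsmul, ht, natCast_zsmul, ← inr_smul] at h2
    exact inr_injective (h2.trans (inr_zero ℤ).symm)

/-- Free PI rings with `TorCond` are images of torsion-free free PI rings. -/
theorem q1_main (A : Type u) [NonUnitalRing A] (hA : IsFreePIRing A) (h : TorCond A) :
    ∃ (B : Type u) (_ : NonUnitalRing B), IsFreePIRing B ∧
      (∀ (n : ℕ) (b : B), n ≠ 0 → n • b = 0 → b = 0) ∧
      ∃ φ : B →ₙ+* A, Function.Surjective φ := by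
  obtain ⟨Q, h1, h2, h3, h4⟩ := exists_pure_of_good (isTI_TA A) (hasUnit_TA hA.1)
    (good_TA hA.1 h)
  exact ring_core A hA Q h1 h2 h3 h4

end TF
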